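import Pool.Agent.R782.Bal.Main

/-!
# The action dimension conjecture and coloured nerves in spheres

Let `L` be the flag complex of the finite graph `G`. If `L` is piecewise linearly embedded in the sphere of dimension
`n - 1` then the right-angled Coxeter group `W G` acts properly and cocompactly on a contractible `n`-manifold
(with boundary), so its action dimension is at most `n`; the action dimension conjecture predicts that the
`ℓ²`-homology vanishes in the degrees `i > n / 2`, that is, `2 ℓ²dim (W G) ≤ n`.

(1) Proper colourings: `L` is `(d + 1)`-colourable and embedded in the sphere of dimension `2 d`; `n = 2 d + 1`.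
(2) Small colourings: `G = cs X col` is the subdivision of a simplicial complex `X` embedded in the sphere of dimension
`2 d` in which only the monochromatic simplices are subdivided; there are numbers `a c` with sum at most `d + 1` such
that the simplices of colour `c` have at most `2 a c` vertices.
In particular, if `i` is a degree with nonzero `ℓ²`-homology then the `i`-colourable complex `L` is not embedded in
the sphere of dimension `2 i - 2`: not topologically, not almost embedded, and not a subcomplex of a mod `2`
homology sphere.
-/

set_option autoImplicit false

namespace Pool.Agent.Results.MP_b5ea8f_gt.BalancedNerves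

open Pool.Agent.W907.SG Pool.Agent.R782.Bal

/-- The reduced `ℓ²`-homology of the Davis complex of `W G` vanishes in all degrees `i > d`, if (1) the graph `G` is
properly coloured by `d + 1` colours and its flag complex is embedded in the sphere of dimension `2 d`; or (2)
`G = cs X col` for a simplicial complex `X` embedded in the sphere of dimension `2 d` and a small colouring of its
vertices. -/
theorem result :
    (∀ (d : ℕ) (V : Type) [Fintype V] [LinearOrder V] (G : SimpleGraph V) (col : V → Fin (d + 1)),
      (∀ u v, G.Adj u v → col u ≠ col v) → Emb d G → ∀ i : ℕ, d < i → L2Van G i) ∧
    (∀ (d N k : ℕ) (X : Finset (Finset (Fin N))) (col : Fin N → Fin k),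
      (∀ σ ∈ X, ∀ τ : Finset (Fin N), τ ⊆ σ → τ ∈ X) → Small d X col → EmbX d X col →
      ∀ [Fintype (MF X col)] [LinearOrder (MF X col)], ∀ i : ℕ, d < i → L2Van (cs X col) i) :=
  ⟨fun _ _ _ _ _ col hc hE i hi => l2_emb hE col hc i hi,
    fun _ _ _ _ _ hX hs hE _ _ i hi => above_cs hX hs hE i hi⟩

end Pool.Agent.Results.MP_b5ea8f_gt.BalancedNerves
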